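import Mathlib
import Pool.Agent.R658.LQ.GTG

/-!
# MP_e45129_gt: complete, locally GTG, locally minimal abelian groups are almost minimal

The definitions `LocallyGTG`, `LocallyMinimal`, `AlmostMinimal`, `Minimal`, `UFSS`, `dv` (the set
`(1/n) U`) are in `Pool.Agent.R658.LQ.GTG`.
-/

namespace Pool.Agent.Results.MP_e45129_gt.AlmostMinimal

theorem result (G : Type) [AddCommGroup G] [UniformSpace G] [IsUniformAddGroup G] [T2Space G]
    [CompleteSpace G] (h1 : R658.LQ.LocallyGTG G) (h2 : R658.LQ.LocallyMinimal G) :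
    R658.LQ.AlmostMinimal G :=
  R658.LQ.almostMinimal G h1 h2

end Pool.Agent.Results.MP_e45129_gt.AlmostMinimal
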